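import Mathlib

set_option autoImplicit false

/-!
Integer decomposition into perfect matchings for regular edge weightings of
multigraphs that become bipartite after deleting two vertices.
-/

namespace Pool.Agent.H151R2.TV

open Finset

variable {V E : Type} [Fintype V] [Fintype E]

/-- weighted degree -/
noncomputable def deg (ends : E → Sym2 V) (x : E → ℕ) (v : V) : ℕ := by
  classical exact ∑ e, if v ∈ ends e then x e else 0

/-- `M` is the edge set of a perfect matching. -/
def PM (ends : E → Sym2 V) (M : Finset E) : Prop :=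
  (∀ e ∈ M, ¬ (ends e).IsDiag) ∧ ∀ v : V, ∃! e, e ∈ M ∧ v ∈ ends e

/-- adjacency in the auxiliary bipartite graph -/
def adj {V E : Type} (ends : E → Sym2 V) (side : V → Bool) (x : E → ℕ) (k : ℕ) :
    (({v : V // side v = true} × Fin k) ⊕ (Σ e : E, Fin (x e))) →
    (({v : V // side v = false} × Fin k) ⊕ (Σ e : E, Fin (x e))) → Prop
  | .inl _, .inl _ => False
  | .inl p, .inr f => p.1.1 ∈ ends f.1
  | .inr g, .inl q => q.1.1 ∈ ends g.1
  | .inr g, .inr f => f = g

theorem bip_factor (ends : E → Sym2 V) (side : V → Bool) (x : E → ℕ) (k : ℕ)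
    (hx : ∀ e, x e ≠ 0 → ∃ a b, side a = true ∧ side b = false ∧ ends e = s(a, b))
    (hcard : Fintype.card {v : V // side v = true} = Fintype.card {v : V // side v = false})
    (hall : ∀ (S T : Finset V), (∀ w ∈ S, side w = true) → (∀ w ∈ T, side w = false) →
      k * #S ≤ k * #T + ∑ e, (open Classical in
        if (∃ w ∈ S, w ∈ ends e) ∧ (∀ w ∈ T, w ∉ ends e) then x e else 0)) :
    ∃ z : E → ℕ, (∀ e, z e ≤ x e) ∧ ∀ w, deg ends z w = k := by
  classical
  let t : (({v : V // side v = true} × Fin k) ⊕ (Σ e : E, Fin (x e))) →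
      Finset (({v : V // side v = false} × Fin k) ⊕ (Σ e : E, Fin (x e))) :=
    fun r => univ.filter (adj ends side x k r)
  have htmem : ∀ r c, c ∈ t r ↔ adj ends side x k r c := by
    intro r c; simp [t]
  have hpos : ∀ g : (Σ e : E, Fin (x e)), x g.1 ≠ 0 := by
    rintro ⟨e, i⟩
    exact (Nat.pos_of_ne_zero (fun h => by
      have := i.2
      simp only at h
      omega)).ne'
  -- Hall's condition
  have hHall : ∀ R : Finset (({v : V // side v = true} × Fin k) ⊕ (Σ e : E, Fin (x e))),
      #R ≤ #(R.biUnion t) := by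
    intro R
    -- the sets
    let RE : Finset (Σ e : E, Fin (x e)) := univ.filter (fun g => Sum.inr g ∈ R)
    let RA : Finset ({v : V // side v = true} × Fin k) := univ.filter (fun p => Sum.inl p ∈ R)
    let S : Finset V := univ.filter (fun w => ∃ p : {v : V // side v = true} × Fin k,
      Sum.inl p ∈ R ∧ p.1.1 = w)
    let T : Finset V := univ.filter (fun w => side w = false ∧
      ∃ g : (Σ e : E, Fin (x e)), Sum.inr g ∈ R ∧ w ∈ ends g.1)
    let D : Finset (Σ e : E, Fin (x e)) := univ.filter (fun g =>
      (∃ w ∈ S, w ∈ ends g.1) ∧ (∀ w ∈ T, w ∉ ends g.1))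
    have hSside : ∀ w ∈ S, side w = true := by
      intro w hw
      simp only [S, mem_filter, mem_univ, true_and] at hw
      obtain ⟨p, _, rfl⟩ := hw
      exact p.1.2
    have hTside : ∀ w ∈ T, side w = false := by
      intro w hw
      simp only [T, mem_filter, mem_univ, true_and] at hw
      exact hw.1
    have hcond := hall S T hSside hTside
    have hDcard : #D = ∑ e, if (∃ w ∈ S, w ∈ ends e) ∧ (∀ w ∈ T, w ∉ ends e) then x e else 0 := by
      have h1 : #D = ∑ g : (Σ e : E, Fin (x e)),
          if (∃ w ∈ S, w ∈ ends g.1) ∧ (∀ w ∈ T, w ∉ ends g.1) then 1 else 0 := by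
        rw [Finset.card_filter]
      rw [h1, Fintype.sum_sigma]
      apply Finset.sum_congr rfl
      intro e _
      split_ifs <;> simp
    have hR : #R ≤ k * #S + #RE := by
      have h1 : #R = #RA + #RE := by
        have : R = RA.disjSum RE := by
          ext c
          rcases c with p | g
          · simp [RA, Finset.inl_mem_disjSum]
          · simp [RE, Finset.inr_mem_disjSum]
        rw [this, Finset.card_disjSum]
      have h2 : #RA ≤ k * #S := by
        have h3 : RA ⊆ (univ.filter (fun p : {v : V // side v = true} × Fin k => p.1.1 ∈ S)) := by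
          intro p hp
          simp only [RA, mem_filter, mem_univ, true_and] at hp
          simp only [S, mem_filter, mem_univ, true_and]
          exact ⟨p, hp, rfl⟩
        refine (Finset.card_le_card h3).trans ?_
        have h4 : #(univ.filter (fun p : {v : V // side v = true} × Fin k => p.1.1 ∈ S))
            ≤ #(S ×ˢ (univ : Finset (Fin k))) := by
          apply Finset.card_le_card_of_injOn (fun p => (p.1.1, p.2))
          · intro p hp
            simp only [coe_filter, mem_univ, true_and, Set.mem_ofPred_eq] at hp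
            simp [hp]
          · rintro ⟨⟨p, hp⟩, i⟩ _ ⟨⟨q, hq⟩, j⟩ _ h
            simp only [Prod.mk.injEq] at h
            obtain ⟨h1, h2⟩ := h
            subst h1; subst h2; rfl
        rw [Finset.card_product] at h4
        simp only [Finset.card_univ, Fintype.card_fin] at h4
        linarith [h4, Nat.mul_comm k (#S)]
      omega
    have hN : k * #T + #RE + #D ≤ #(R.biUnion t) := by
      -- embed
      let TB : Finset ({v : V // side v = false} × Fin k) := univ.filter (fun q => q.1.1 ∈ T)
      have hTB : #TB = k * #T := by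
        have h4 : #TB = #(T ×ˢ (univ : Finset (Fin k))) := by
          apply Finset.card_bij (fun p _ => (p.1.1, p.2))
          · intro p hp
            simp only [TB, mem_filter, mem_univ, true_and] at hp
            simp [hp]
          · rintro ⟨⟨p, hp⟩, i⟩ _ ⟨⟨q, hq⟩, j⟩ _ h
            simp only [Prod.mk.injEq] at h
            obtain ⟨h1, h2⟩ := h
            subst h1; subst h2; rfl
          · rintro ⟨w, j⟩ hw
            simp only [mem_product, mem_univ, and_true] at hw
            refine ⟨(⟨w, hTside w hw⟩, j), ?_, rfl⟩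
            simp [TB, hw]
        rw [h4, Finset.card_product]
        simp [Nat.mul_comm]
      have hdisj : Disjoint RE D := by
        rw [Finset.disjoint_left]
        intro g hg hD
        simp only [RE, mem_filter, mem_univ, true_and] at hg
        simp only [D, mem_filter, mem_univ, true_and] at hD
        obtain ⟨a, b, ha, hb, hab⟩ := hx g.1 (hpos g)
        apply hD.2 b
        · simp only [T, mem_filter, mem_univ, true_and]
          refine ⟨hb, g, hg, ?_⟩
          rw [hab]; simp
        · rw [hab]; simp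
      have hsub : TB.disjSum (RE ∪ D) ⊆ R.biUnion t := by
        intro c hc
        rw [Finset.mem_biUnion]
        rcases c with q | g
        · rw [Finset.inl_mem_disjSum] at hc
          simp only [TB, T, mem_filter, mem_univ, true_and] at hc
          obtain ⟨_, g, hg, hgq⟩ := hc
          exact ⟨Sum.inr g, hg, (htmem _ _).2 hgq⟩
        · rw [Finset.inr_mem_disjSum, Finset.mem_union] at hc
          rcases hc with hc | hc
          · simp only [RE, mem_filter, mem_univ, true_and] at hc
            exact ⟨Sum.inr g, hc, (htmem _ _).2 rfl⟩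
          · simp only [D, S, mem_filter, mem_univ, true_and] at hc
            obtain ⟨⟨w, ⟨p, hp, hpw⟩, hwg⟩, _⟩ := hc
            refine ⟨Sum.inl p, hp, (htmem _ _).2 ?_⟩
            show p.1.1 ∈ ends g.1
            rw [hpw]; exact hwg
      have := Finset.card_le_card hsub
      rw [Finset.card_disjSum, Finset.card_union_of_disjoint hdisj, hTB] at this
      omega
    rw [← hDcard] at hcond
    omega
  obtain ⟨f, hfinj, hft⟩ := (Finset.all_card_le_biUnion_card_iff_exists_injective t).1 hHall
  have hfadj : ∀ r, adj ends side x k r (f r) := fun r => (htmem _ _).1 (hft r)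
  have hbij : Function.Bijective f := by
    rw [Fintype.bijective_iff_injective_and_card]
    refine ⟨hfinj, ?_⟩
    simp only [Fintype.card_sum, Fintype.card_prod, hcard]
  -- structure of f
  have hinl : ∀ p, ∃ g, f (Sum.inl p) = Sum.inr g ∧ p.1.1 ∈ ends g.1 := by
    intro p
    have h := hfadj (Sum.inl p)
    rcases hfp : f (Sum.inl p) with q | g
    · rw [hfp] at h; exact absurd h (by simp [adj])
    · rw [hfp] at h; exact ⟨g, rfl, h⟩
  let used : (Σ e : E, Fin (x e)) → Prop := fun g => ∃ q, f (Sum.inr g) = Sum.inl q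
  let z : E → ℕ := fun e => #(univ.filter (fun i : Fin (x e) => used ⟨e, i⟩))
  refine ⟨z, ?_, ?_⟩
  · intro e
    calc z e ≤ #(univ : Finset (Fin (x e))) := Finset.card_filter_le _ _
      _ = x e := by simp
  · intro w
    have hdz : deg ends z w = #(univ.filter (fun g : (Σ e : E, Fin (x e)) =>
        w ∈ ends g.1 ∧ used g)) := by
      rw [Finset.card_filter, Fintype.sum_sigma]
      unfold deg
      apply Finset.sum_congr rfl
      intro e _
      by_cases hw : w ∈ ends e
      · simp only [hw, if_true, true_and, z]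
        rw [Finset.card_filter]
      · simp [hw]
    rw [hdz]
    cases hside : side w with
    | true =>
      -- bijection with Fin k
      have hch : ∀ i : Fin k, ∃ g, f (Sum.inl (⟨w, hside⟩, i)) = Sum.inr g ∧ w ∈ ends g.1 :=
        fun i => hinl (⟨w, hside⟩, i)
      choose h hh1 hh2 using hch
      have himg : (univ.filter (fun g : (Σ e : E, Fin (x e)) => w ∈ ends g.1 ∧ used g))
          = univ.image h := by
        ext g
        simp only [mem_filter, mem_univ, true_and, mem_image]
        constructor
        · rintro ⟨hwg, q, hq⟩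
          obtain ⟨r, hr⟩ := hbij.2 (Sum.inr g)
          rcases r with p | g'
          · have h1 := hfadj (Sum.inl p)
            rw [hr] at h1
            have h1' : p.1.1 ∈ ends g.1 := h1
            obtain ⟨a, b, ha, hb, hab⟩ := hx g.1 (hpos g)
            rw [hab] at h1' hwg
            have hpa : p.1.1 = a := by
              rcases Sym2.mem_iff.1 h1' with h | h
              · exact h
              · exfalso
                have := p.1.2
                rw [h, hb] at this
                exact absurd this (by simp)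
            have hwa : w = a := by
              rcases Sym2.mem_iff.1 hwg with h | h
              · exact h
              · exfalso
                rw [h, hb] at hside
                exact absurd hside (by simp)
            refine ⟨p.2, ?_⟩
            have h2 : p = (⟨w, hside⟩, p.2) := by
              ext
              · simp [hpa, hwa]
              · rfl
            have h3 := hh1 p.2
            rw [← h2, hr] at h3
            exact (Sum.inr_injective h3).symm
          · exfalso
            have h1 := hfadj (Sum.inr g')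
            rw [hr] at h1
            have h1' : g = g' := h1
            rw [← h1', hq] at hr
            exact absurd hr (by simp)
        · rintro ⟨i, rfl⟩
          refine ⟨hh2 i, ?_⟩
          rcases hfr : f (Sum.inr (h i)) with q | g
          · exact ⟨q, hfr⟩
          · exfalso
            have h1 := hfadj (Sum.inr (h i))
            rw [hfr] at h1
            have h1' : g = h i := h1
            rw [h1', ← hh1 i] at hfr
            exact absurd (hfinj hfr) (by simp)
      rw [himg, Finset.card_image_of_injective]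
      · simp
      · intro i j hij
        have h1 := hh1 i
        rw [hij, ← hh1 j] at h1
        have h2 := hfinj h1
        simpa using h2
    | false =>
      have hch : ∀ j : Fin k, ∃ g, f (Sum.inr g) = Sum.inl (⟨w, hside⟩, j) := by
        intro j
        obtain ⟨r, hr⟩ := hbij.2 (Sum.inl (⟨w, hside⟩, j))
        rcases r with p | g
        · exfalso
          obtain ⟨g, hg, _⟩ := hinl p
          rw [hg] at hr
          exact absurd hr (by simp)
        · exact ⟨g, hr⟩
      choose h hh using hch
      have himg : (univ.filter (fun g : (Σ e : E, Fin (x e)) => w ∈ ends g.1 ∧ used g))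
          = univ.image h := by
        ext g
        simp only [mem_filter, mem_univ, true_and, mem_image]
        constructor
        · rintro ⟨hwg, q, hq⟩
          have h1 := hfadj (Sum.inr g)
          rw [hq] at h1
          have h1' : q.1.1 ∈ ends g.1 := h1
          obtain ⟨a, b, ha, hb, hab⟩ := hx g.1 (hpos g)
          rw [hab] at h1' hwg
          have hqb : q.1.1 = b := by
            rcases Sym2.mem_iff.1 h1' with h | h
            · exfalso
              have := q.1.2
              rw [h, ha] at this
              exact absurd this (by simp)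
            · exact h
          have hwb : w = b := by
            rcases Sym2.mem_iff.1 hwg with h | h
            · exfalso
              rw [h, ha] at hside
              exact absurd hside (by simp)
            · exact h
          refine ⟨q.2, ?_⟩
          have h2 : q = (⟨w, hside⟩, q.2) := by
            ext
            · simp [hqb, hwb]
            · rfl
          have h3 := hh q.2
          rw [← h2, ← hq] at h3
          exact Sum.inr_injective (hfinj h3)
        · rintro ⟨j, rfl⟩
          refine ⟨?_, ⟨_, hh j⟩⟩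
          have h1 := hfadj (Sum.inr (h j))
          rw [hh j] at h1
          exact h1
      rw [himg, Finset.card_image_of_injective]
      · simp
      · intro i j hij
        have h1 := hh i
        rw [hij, hh j] at h1
        simpa using (Sum.inl_injective h1).symm


omit [Fintype V] in
theorem deg_eq (ends : E → Sym2 V) (x : E → ℕ) (v : V) [DecidablePred fun e => v ∈ ends e] :
    deg ends x v = ∑ e, if v ∈ ends e then x e else 0 := by
  unfold deg
  apply Finset.sum_congr rfl
  intro e _
  congr

omit [Fintype V] in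
theorem le_deg (ends : E → Sym2 V) (x : E → ℕ) (v : V) (e : E) (h : v ∈ ends e) :
    x e ≤ deg ends x v := by
  classical
  rw [deg_eq]
  have := Finset.single_le_sum (f := fun e => if v ∈ ends e then x e else 0)
    (fun _ _ => Nat.zero_le _) (Finset.mem_univ e)
  simpa [h] using this

omit [Fintype V] in
/-- degree sums over a set contained in one side count edges touching the set -/
theorem sum_deg_side (ends : E → Sym2 V) (side : V → Bool) (x : E → ℕ) (β : Bool)
    (hx : ∀ e, x e ≠ 0 → ∃ a b, side a = β ∧ side b = !β ∧ ends e = s(a, b))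
    (S : Finset V) (hS : ∀ w ∈ S, side w = β) :
    ∑ w ∈ S, deg ends x w = ∑ e, (open Classical in
      if (∃ w ∈ S, w ∈ ends e) then x e else 0) := by
  classical
  simp only [deg_eq]
  rw [Finset.sum_comm]
  apply Finset.sum_congr rfl
  intro e _
  by_cases h0 : x e = 0
  · simp [h0]
  · obtain ⟨a, b, ha, hb, hab⟩ := hx e h0
    have hiff : ∀ w ∈ S, (w ∈ ends e ↔ a = w) := by
      intro w hw
      rw [hab, Sym2.mem_iff]
      constructor
      · rintro (h | h)
        · exact h.symm
        · exfalso
          have := hS w hw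
          rw [h, hb] at this
          exact absurd this (by cases β <;> simp)
      · intro h; exact Or.inl h.symm
    have h1 : ∑ w ∈ S, (if w ∈ ends e then x e else 0) = ∑ w ∈ S, if a = w then x e else 0 := by
      apply Finset.sum_congr rfl
      intro w hw
      simp only [hiff w hw]
    rw [h1, Finset.sum_ite_eq]
    have h2 : (∃ w ∈ S, w ∈ ends e) ↔ a ∈ S := by
      constructor
      · rintro ⟨w, hw, hwe⟩
        rw [(hiff w hw).1 hwe]; exact hw
      · intro h; exact ⟨a, h, (hiff a h).2 rfl⟩
    simp only [h2]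

theorem konig (ends : E → Sym2 V) (side : V → Bool) (k : ℕ) : ∀ (x : E → ℕ),
    (∀ e, x e ≠ 0 → ∃ a b, side a = true ∧ side b = false ∧ ends e = s(a, b)) →
    (∀ w, deg ends x w = k) →
    ∃ n : Finset E → ℕ, (∀ M, n M ≠ 0 → PM ends M) ∧
      ∀ e, x e = ∑ M : Finset E, (open Classical in if e ∈ M then n M else 0) := by
  classical
  induction k with
  | zero =>
    intro x hx hdeg
    refine ⟨fun _ => 0, fun M h => absurd rfl h, ?_⟩
    intro e
    simp only [ite_self, Finset.sum_const_zero]
    by_contra h
    obtain ⟨a, b, ha, hb, hab⟩ := hx e h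
    have := le_deg ends x a e (by rw [hab]; simp)
    rw [hdeg a] at this
    omega
  | succ k ih =>
    intro x hx hdeg
    have hx' : ∀ e, x e ≠ 0 → ∃ a b, side a = false ∧ side b = !false ∧ ends e = s(a, b) := by
      intro e he
      obtain ⟨a, b, ha, hb, hab⟩ := hx e he
      exact ⟨b, a, hb, by simpa using ha, by rw [hab, Sym2.eq_swap]⟩
    have hS : ∀ S : Finset V, (∀ w ∈ S, side w = true) → (k + 1) * #S =
        ∑ e, if (∃ w ∈ S, w ∈ ends e) then x e else 0 := by
      intro S hS
      rw [← sum_deg_side ends side x true (by simpa using hx) S hS]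
      simp [hdeg, Nat.mul_comm]
    have hT : ∀ T : Finset V, (∀ w ∈ T, side w = false) → (k + 1) * #T =
        ∑ e, if (∃ w ∈ T, w ∈ ends e) then x e else 0 := by
      intro T hT
      rw [← sum_deg_side ends side x false hx' T hT]
      simp [hdeg, Nat.mul_comm]
    have hcard : Fintype.card {v : V // side v = true} =
        Fintype.card {v : V // side v = false} := by
      rw [Fintype.card_subtype, Fintype.card_subtype]
      have h1 := hS (univ.filter (fun w => side w = true)) (by simp)
      have h2 := hT (univ.filter (fun w => side w = false)) (by simp)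
      have h3 : (k + 1) * #(univ.filter (fun w => side w = true)) =
          (k + 1) * #(univ.filter (fun w => side w = false)) := by
        rw [h1, h2]
        apply Finset.sum_congr rfl
        intro e _
        by_cases h0 : x e = 0
        · simp [h0]
        · obtain ⟨a, b, ha, hb, hab⟩ := hx e h0
          rw [if_pos ⟨a, by simp [ha], by rw [hab]; simp⟩,
            if_pos ⟨b, by simp [hb], by rw [hab]; simp⟩]
      exact Nat.eq_of_mul_eq_mul_left (Nat.succ_pos k) h3
    have hall : ∀ (S T : Finset V), (∀ w ∈ S, side w = true) → (∀ w ∈ T, side w = false) →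
        1 * #S ≤ 1 * #T + ∑ e,
          if (∃ w ∈ S, w ∈ ends e) ∧ (∀ w ∈ T, w ∉ ends e) then x e else 0 := by
      intro S T hSs hTs
      have h1 := hS S hSs
      have h2 := hT T hTs
      have h3 : (∑ e, if (∃ w ∈ S, w ∈ ends e) then x e else 0) ≤
          (∑ e, if (∃ w ∈ T, w ∈ ends e) then x e else 0) +
          ∑ e, if (∃ w ∈ S, w ∈ ends e) ∧ (∀ w ∈ T, w ∉ ends e) then x e else 0 := by
        rw [← Finset.sum_add_distrib]
        apply Finset.sum_le_sum
        intro e _
        by_cases hs : ∃ w ∈ S, w ∈ ends e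
        · by_cases ht : ∃ w ∈ T, w ∈ ends e
          · simp [hs, ht]
          · have ht' : ∀ w ∈ T, w ∉ ends e := by
              intro w hw hwe; exact ht ⟨w, hw, hwe⟩
            have e1 : (if (∃ w ∈ S, w ∈ ends e) ∧ (∀ w ∈ T, w ∉ ends e) then x e else 0) = x e :=
              if_pos ⟨hs, ht'⟩
            rw [if_pos hs, e1]
            omega
        · simp [hs]
      rw [← h1, ← h2] at h3
      by_contra hcon
      push Not at hcon
      have h4 : #S ≥ #T + (∑ e,
          if (∃ w ∈ S, w ∈ ends e) ∧ (∀ w ∈ T, w ∉ ends e) then x e else 0) + 1 := by omega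
      generalize (∑ e,
          if (∃ w ∈ S, w ∈ ends e) ∧ (∀ w ∈ T, w ∉ ends e) then x e else 0) = DD at h3 h4
      have h5 := Nat.mul_le_mul_left (k + 1) h4
      nlinarith
    obtain ⟨z, hzx, hzdeg⟩ := bip_factor ends side x 1 hx hcard hall
    let M : Finset E := univ.filter (fun e => z e ≠ 0)
    have hz1 : ∀ e, z e ≤ 1 := by
      intro e
      by_cases h0 : z e = 0
      · omega
      · have hxe : x e ≠ 0 := by have := hzx e; omega
        obtain ⟨a, b, ha, hb, hab⟩ := hx e hxe
        have := le_deg ends z a e (by rw [hab]; simp)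
        rw [hzdeg a] at this
        exact this
    have hM : PM ends M := by
      refine ⟨?_, ?_⟩
      · intro e he
        simp only [M, mem_filter, mem_univ, true_and] at he
        have hxe : x e ≠ 0 := by have := hzx e; omega
        obtain ⟨a, b, ha, hb, hab⟩ := hx e hxe
        rw [hab, Sym2.mk_isDiag_iff]
        rintro rfl
        rw [ha] at hb; exact absurd hb (by simp)
      · intro w
        have h1 := hzdeg w
        rw [deg_eq] at h1
        have h2 : #(univ.filter (fun e => e ∈ M ∧ w ∈ ends e)) = 1 := by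
          rw [Finset.card_filter]
          refine Eq.trans ?_ h1
          apply Finset.sum_congr rfl
          intro e _
          by_cases hw : w ∈ ends e
          · by_cases h0 : z e = 0
            · simp [M, h0]
            · have h3 := hz1 e
              have h4 : z e = 1 := by omega
              have h5 : e ∈ M := by simp [M, h0]
              rw [if_pos ⟨h5, hw⟩, if_pos hw, h4]
          · simp [hw]
        obtain ⟨e, he⟩ := Finset.card_eq_one.1 h2
        refine ⟨e, ?_, ?_⟩
        · have : e ∈ (univ.filter (fun e => e ∈ M ∧ w ∈ ends e)) := by rw [he]; simp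
          simpa using this
        · intro e' he'
          have : e' ∈ (univ.filter (fun e => e ∈ M ∧ w ∈ ends e)) := by simpa using he'
          rw [he] at this
          simpa using this
    obtain ⟨n, hn, hxn⟩ := ih (fun e => x e - z e) (by
        intro e he
        have he' : x e - z e ≠ 0 := he
        exact hx e (by omega)) (by
        intro w
        have h1 : deg ends (fun e => x e - z e) w + deg ends z w = deg ends x w := by
          simp only [deg_eq]
          rw [← Finset.sum_add_distrib]
          apply Finset.sum_congr rfl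
          intro e _
          have := hzx e
          split_ifs <;> omega
        rw [hzdeg, hdeg] at h1
        omega)
    refine ⟨fun N => n N + if N = M then 1 else 0, ?_, ?_⟩
    · intro N hN
      by_cases h : N = M
      · rw [h]; exact hM
      · simp only [h, if_false, add_zero] at hN
        exact hn N hN
    · intro e
      have h1 : x e - z e = ∑ M : Finset E, if e ∈ M then n M else 0 := hxn e
      have h2 : z e = ∑ N : Finset E, if e ∈ N then (if N = M then 1 else 0) else 0 := by
        have h3 : ∀ N : Finset E, (if e ∈ N then (if N = M then 1 else 0) else 0) =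
            if N = M then (if e ∈ M then 1 else 0) else 0 := by
          intro N
          by_cases h : N = M
          · subst h; simp
          · simp [h]
        simp only [h3]
        rw [Finset.sum_ite_eq']
        simp only [mem_univ, if_true, M, mem_filter, true_and]
        have := hz1 e
        by_cases h0 : z e = 0
        · simp [h0]
        · simp only [ne_eq, h0, not_false_eq_true, if_true]; omega
      have h4 : x e = (x e - z e) + z e := by have := hzx e; omega
      rw [h4, h1, h2, ← Finset.sum_add_distrib]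
      apply Finset.sum_congr rfl
      intro N _
      by_cases hN : e ∈ N <;> simp [hN]


/-! ### Vertex types -/

/-- indicator of an edge joining type `X` to type `Y` -/
def br (X Y i j : Fin 6) : ℤ := if (i = X ∧ j = Y) ∨ (i = Y ∧ j = X) then 1 else 0

/-- number of ends of type `X` -/
def dg (X i j : Fin 6) : ℤ := (if i = X then 1 else 0) + (if j = X then 1 else 0)

/-- the side of each type in the first bipartition -/
def sideT : Fin 6 → Bool := ![true, true, false, false, false, true]

/-- pairs of types that an edge of the support can join -/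
def allowed (i j : Fin 6) : Prop :=
  (i = 4 → j ≠ 4) ∧ (i = 5 → j ≠ 5) ∧
    (i ≠ 4 → i ≠ 5 → j ≠ 4 → j ≠ 5 → sideT i ≠ sideT j)

instance (i j : Fin 6) : Decidable (allowed i j) := by unfold allowed; infer_instance

/-- weighted sum over the edges of a function of the types of the ends -/
def W (x : E → ℕ) (a b : E → V) (t : V → Fin 6) (G : Fin 6 → Fin 6 → ℤ) : ℤ :=
  ∑ e, (x e : ℤ) * G (t (a e)) (t (b e))

omit [Fintype V] in
theorem W_nonneg (x : E → ℕ) (a b : E → V) (t : V → Fin 6) (G : Fin 6 → Fin 6 → ℤ)
    (hG : ∀ i j, 0 ≤ G i j) : 0 ≤ W x a b t G :=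
  Finset.sum_nonneg (fun _ _ => mul_nonneg (by positivity) (hG _ _))

omit [Fintype V] in
theorem W_expand (x : E → ℕ) (a b : E → V) (t : V → Fin 6)
    (hal : ∀ e, x e ≠ 0 → allowed (t (a e)) (t (b e)))
    (G : Fin 6 → Fin 6 → ℤ) (hsymm : ∀ i j, allowed i j → G i j = G j i) :
    W x a b t G = G 0 2 * W x a b t (br 0 2) + G 0 3 * W x a b t (br 0 3)
      + G 0 4 * W x a b t (br 0 4) + G 0 5 * W x a b t (br 0 5)
      + G 1 2 * W x a b t (br 1 2) + G 1 3 * W x a b t (br 1 3)
      + G 1 4 * W x a b t (br 1 4) + G 1 5 * W x a b t (br 1 5)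
      + G 2 4 * W x a b t (br 2 4) + G 2 5 * W x a b t (br 2 5)
      + G 3 4 * W x a b t (br 3 4) + G 3 5 * W x a b t (br 3 5)
      + G 4 5 * W x a b t (br 4 5) := by
  unfold W
  simp only [Finset.mul_sum]
  simp only [← Finset.sum_add_distrib]
  apply Finset.sum_congr rfl
  intro e _
  by_cases h0 : x e = 0
  · simp [h0]
  · have h1 := hal e h0
    have key : ∀ i j, allowed i j → G i j = G 0 2 * br 0 2 i j + G 0 3 * br 0 3 i j
      + G 0 4 * br 0 4 i j + G 0 5 * br 0 5 i j
      + G 1 2 * br 1 2 i j + G 1 3 * br 1 3 i j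
      + G 1 4 * br 1 4 i j + G 1 5 * br 1 5 i j
      + G 2 4 * br 2 4 i j + G 2 5 * br 2 5 i j
      + G 3 4 * br 3 4 i j + G 3 5 * br 3 5 i j
      + G 4 5 * br 4 5 i j := by
      intro i j hij
      have hs := hsymm i j hij
      fin_cases i <;> fin_cases j <;>
        first
        | (exfalso; revert hij; decide)
        | (simp [br] at hs ⊢; done)
        | (simp [br] at hs ⊢; linarith)
    rw [key _ _ h1]
    ring


theorem key_ineq (F02 F03 F04 F05 F12 F13 F14 F15 F24 F25 F34 F35 F45 n0 n1 n2 n3 r : ℤ)
    (p02 : 0 ≤ F02) (p03 : 0 ≤ F03) (p04 : 0 ≤ F04) (p05 : 0 ≤ F05) (p12 : 0 ≤ F12)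
    (p13 : 0 ≤ F13) (p14 : 0 ≤ F14) (p15 : 0 ≤ F15) (p24 : 0 ≤ F24) (p25 : 0 ≤ F25)
    (p34 : 0 ≤ F34) (p35 : 0 ≤ F35) (p45 : 0 ≤ F45)
    (h0 : r * n0 = F02 + F03 + F04 + F05)
    (h1 : r * n1 = F12 + F13 + F14 + F15)
    (h2 : r * n2 = F02 + F12 + F24 + F25)
    (h3 : r * n3 = F03 + F13 + F34 + F35)
    (h4 : r = F04 + F14 + F24 + F34 + F45)
    (h5 : r = F05 + F15 + F25 + F35 + F45)
    (hn : n0 + n1 = n2 + n3)
    (hcut : n0 = n2 → r ≤ F03 + F12 + F04 + F24 + F45 + F15 + F35) :
    (F04 + F14) * (n0 - n2) ≤ F03 + F04 - F25 := by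
  have hsum : r * (n0 + n1) = r * (n2 + n3) := by rw [hn]
  have e1 : F25 + F35 = F04 + F14 := by nlinarith
  have e2 : F05 + F15 = F24 + F34 := by nlinarith
  rcases lt_trichotomy n0 n2 with h | h | h
  · have : (F04 + F14) * (n0 - n2) ≤ (F04 + F14) * (-1) :=
      mul_le_mul_of_nonneg_left (by omega) (by omega)
    nlinarith
  · subst h
    have := hcut rfl
    have h6 : F02 + F03 + F04 + F05 = F02 + F12 + F24 + F25 := by rw [← h0, ← h2]
    have : (F04 + F14) * (n0 - n0) = 0 := by ring
    rw [this]
    omega
  · have h6 : F03 + F04 - F25 = r * (n0 - n2) - F05 + F12 + F24 := by nlinarith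
    rw [h6]
    have h7 : ((F04 + F14) + (F24 + F34)) * (n0 - n2) ≤ r * (n0 - n2) :=
      mul_le_mul_of_nonneg_right (by omega) (by omega)
    have h8 : (F24 + F34) * 1 ≤ (F24 + F34) * (n0 - n2) :=
      mul_le_mul_of_nonneg_left (by omega) (by omega)
    nlinarith

theorem key_cases (F02 F03 F04 F05 F12 F13 F14 F15 F24 F25 F34 F35 F45 n0 n1 n2 n3 r : ℤ)
    (p02 : 0 ≤ F02) (p03 : 0 ≤ F03) (p04 : 0 ≤ F04) (p05 : 0 ≤ F05) (p12 : 0 ≤ F12)
    (p13 : 0 ≤ F13) (p14 : 0 ≤ F14) (p15 : 0 ≤ F15) (p24 : 0 ≤ F24) (p25 : 0 ≤ F25)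
    (p34 : 0 ≤ F34) (p35 : 0 ≤ F35) (p45 : 0 ≤ F45)
    (h0 : r * n0 = F02 + F03 + F04 + F05)
    (h1 : r * n1 = F12 + F13 + F14 + F15)
    (h2 : r * n2 = F02 + F12 + F24 + F25)
    (h3 : r * n3 = F03 + F13 + F34 + F35)
    (h4 : r = F04 + F14 + F24 + F34 + F45)
    (h5 : r = F05 + F15 + F25 + F35 + F45)
    (hn : n0 + n1 = n2 + n3)
    (hcut : n0 = n2 → r ≤ F03 + F12 + F04 + F24 + F45 + F15 + F35)
    (bv bu : ℤ) (hbv : bv = 0 ∨ bv = 1) (hbu : bu = 0 ∨ bu = 1) :
    (F04 + F14) * (n0 + bv) ≤ (F04 + F14) * (n2 + bu) + (F03 + (1 - bu) * F04 + bv * F35) := by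
  have key := key_ineq F02 F03 F04 F05 F12 F13 F14 F15 F24 F25 F34 F35 F45 n0 n1 n2 n3 r
      p02 p03 p04 p05 p12 p13 p14 p15 p24 p25 p34 p35 p45 h0 h1 h2 h3 h4 h5 hn hcut
  have hsum : r * n0 + r * n1 = r * n2 + r * n3 := by rw [← mul_add, ← mul_add, hn]
  have e1 : F25 + F35 = F04 + F14 := by linarith
  have e2 : (F04 + F14) * (n0 - n2) = (F04 + F14) * n0 - (F04 + F14) * n2 := by ring
  rw [e2] at key
  have e3 : (F04 + F14) * (n0 + bv) = (F04 + F14) * n0 + (F04 + F14) * bv := by ring
  have e4 : (F04 + F14) * (n2 + bu) = (F04 + F14) * n2 + (F04 + F14) * bu := by ring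
  rw [e3, e4]
  rcases hbv with rfl | rfl <;> rcases hbu with rfl | rfl
  · linarith
  · linarith
  · linarith
  · linarith

/-- first bipartition: `v` is put on the `true` side, `u` on the `false` side -/
def side1 (u v : V) (c : V → Bool) [DecidableEq V] (w : V) : Bool :=
  if w = u then false else if w = v then true else c w

/-- vertex types -/
def ty (u v : V) (c : V → Bool) (S T : Finset V) [DecidableEq V] (w : V) : Fin 6 :=
  if w = u then 4 else if w = v then 5 else
    if c w = true then (if w ∈ S then 0 else 1) else (if w ∈ T then 2 else 3)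

omit [Fintype V] in
theorem ty_eq4 [DecidableEq V] (u v : V) (c : V → Bool) (S T : Finset V) (w : V) :
    ty u v c S T w = 4 ↔ w = u := by
  unfold ty
  split_ifs <;> simp_all

omit [Fintype V] in
theorem ty_eq5 [DecidableEq V] (u v : V) (huv : u ≠ v) (c : V → Bool) (S T : Finset V) (w : V) :
    ty u v c S T w = 5 ↔ w = v := by
  unfold ty
  split_ifs <;> simp_all

omit [Fintype V] in
theorem sideT_ty [DecidableEq V] (u v : V) (c : V → Bool) (S T : Finset V) (w : V) :
    sideT (ty u v c S T w) = side1 u v c w := by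
  unfold ty side1
  split_ifs <;> simp_all [sideT]

omit [Fintype V] in
theorem mem_S_iff [DecidableEq V] (u v : V) (huv : u ≠ v) (c : V → Bool) (S T : Finset V)
    (hS : ∀ w ∈ S, side1 u v c w = true) (w : V) :
    w ∈ S ↔ ty u v c S T w = 0 ∨ (v ∈ S ∧ ty u v c S T w = 5) := by
  have h1 := hS w
  unfold side1 at h1
  unfold ty
  split_ifs at h1 ⊢ <;> simp_all

omit [Fintype V] in
theorem mem_T_iff [DecidableEq V] (u v : V) (huv : u ≠ v) (c : V → Bool) (S T : Finset V)
    (hT : ∀ w ∈ T, side1 u v c w = false) (w : V) :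
    w ∈ T ↔ ty u v c S T w = 2 ∨ (u ∈ T ∧ ty u v c S T w = 4) := by
  have h1 := hT w
  unfold side1 at h1
  unfold ty
  split_ifs at h1 ⊢ <;> simp_all


/-- edge weights restricted to the edges respecting the first bipartition, other than `uv` -/
noncomputable def x1 (ends : E → Sym2 V) (x : E → ℕ) (u v : V) (c : V → Bool) [DecidableEq V]
    (e : E) : ℕ :=
  open Classical in
  if (∃ a b, side1 u v c a = true ∧ side1 u v c b = false ∧ ends e = s(a, b)) ∧
    ends e ≠ s(u, v) then x e else 0

omit [Fintype E] in
theorem x1_eq [DecidableEq V] (ends : E → Sym2 V) (x : E → ℕ) (u v : V) (huv : u ≠ v)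
    (c : V → Bool) (S T : Finset V) (e : E) (a b : V) (hab : ends e = s(a, b)) :
    x1 ends x u v c e =
      if sideT (ty u v c S T a) ≠ sideT (ty u v c S T b) ∧
        ¬ ((ty u v c S T a = 4 ∧ ty u v c S T b = 5) ∨
           (ty u v c S T a = 5 ∧ ty u v c S T b = 4)) then x e else 0 := by
  classical
  unfold x1
  simp only [sideT_ty, ty_eq4, ty_eq5 u v huv, hab]
  have h1 : (∃ a' b', side1 u v c a' = true ∧ side1 u v c b' = false ∧ s(a, b) = s(a', b')) ↔
      side1 u v c a ≠ side1 u v c b := by
    constructor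
    · rintro ⟨a', b', h1, h2, h3⟩
      rcases Sym2.eq_iff.1 h3 with ⟨rfl, rfl⟩ | ⟨rfl, rfl⟩
      · rw [h1, h2]; simp
      · rw [h1, h2]; simp
    · intro h
      cases ha : side1 u v c a with
      | true =>
        refine ⟨a, b, ha, ?_, rfl⟩
        rw [ha] at h
        cases hb : side1 u v c b with
        | true => exact absurd hb.symm h
        | false => rfl
      | false =>
        refine ⟨b, a, ?_, ha, Sym2.eq_swap⟩
        rw [ha] at h
        cases hb : side1 u v c b with
        | true => rfl
        | false => exact absurd hb.symm h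
  have h2 : s(a, b) ≠ s(u, v) ↔ ¬ ((a = u ∧ b = v) ∨ (a = v ∧ b = u)) := by
    rw [ne_eq, Sym2.eq_iff]
  simp only [h1, h2]

theorem sum_deg_gen (ends : E → Sym2 V) (a b : E → V) (hab : ∀ e, ends e = s(a e, b e))
    (x : E → ℕ) (hnl : ∀ e, x e ≠ 0 → a e ≠ b e) (P : V → Prop) [DecidablePred P] :
    ∑ w ∈ univ.filter P, (deg ends x w : ℤ) =
      ∑ e, (x e : ℤ) * ((if P (a e) then 1 else 0) + (if P (b e) then 1 else 0)) := by
  classical
  simp only [deg_eq]
  push_cast
  rw [Finset.sum_comm]
  apply Finset.sum_congr rfl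
  intro e _
  by_cases h0 : x e = 0
  · simp [h0]
  · have hne := hnl e h0
    have h1 : ∀ w ∈ univ.filter P, (if w ∈ ends e then (x e : ℤ) else 0) =
        (if w = a e then (x e : ℤ) else 0) + (if w = b e then (x e : ℤ) else 0) := by
      intro w _
      rw [hab e]
      simp only [Sym2.mem_iff]
      by_cases h2 : w = a e
      · have h3 : w ≠ b e := fun h => hne (h2 ▸ h)
        simp [h2, hne]
      · by_cases h3 : w = b e
        · simp [h3, Ne.symm hne]
        · simp [h2, h3]
    rw [Finset.sum_congr rfl h1, Finset.sum_add_distrib, Finset.sum_ite_eq', Finset.sum_ite_eq']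
    simp only [mem_filter, mem_univ, true_and]
    split_ifs <;> ring

theorem ite_aux1 (P Q R : Prop) [Decidable P] [Decidable Q] [Decidable R] (n : ℕ) :
    (if P then ((if Q ∧ R then n else 0 : ℕ) : ℤ) else 0) =
      (n : ℤ) * (if P ∧ Q ∧ R then 1 else 0) := by
  by_cases hP : P <;> by_cases hQ : Q <;> by_cases hR : R <;> simp [hP, hQ, hR]

theorem ite_aux2 (P P' Q R : Prop) [Decidable P] [Decidable P'] [Decidable Q] [Decidable R]
    (n : ℕ) :
    (if P ∧ P' then ((if Q ∧ R then n else 0 : ℕ) : ℤ) else 0) =
      (n : ℤ) * (if P ∧ P' ∧ (Q ∧ R) then 1 else 0) := by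
  by_cases hP : P <;> by_cases hP' : P' <;> by_cases hQ : Q <;> by_cases hR : R <;>
    simp [hP, hP', hQ, hR]

/-- the edges counted in `deg x1 u`, as a function of types -/
def gA (i j : Fin 6) : ℤ :=
  if (i = 4 ∨ j = 4) ∧ sideT i ≠ sideT j ∧ ¬ ((i = 4 ∧ j = 5) ∨ (i = 5 ∧ j = 4)) then 1 else 0

/-- the edges counted in Hall's condition, as a function of types -/
def gH (bv bu : Bool) (i j : Fin 6) : ℤ :=
  if ((i = 0 ∨ (bv = true ∧ i = 5)) ∨ (j = 0 ∨ (bv = true ∧ j = 5))) ∧
    (¬ (i = 2 ∨ (bu = true ∧ i = 4)) ∧ ¬ (j = 2 ∨ (bu = true ∧ j = 4))) ∧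
    (sideT i ≠ sideT j ∧ ¬ ((i = 4 ∧ j = 5) ∨ (i = 5 ∧ j = 4))) then 1 else 0

/-- the edges in the cut around types `0`, `2`, `5` -/
def gC (i j : Fin 6) : ℤ :=
  if ((i = 0 ∨ i = 2 ∨ i = 5) ∧ ¬ (j = 0 ∨ j = 2 ∨ j = 5)) ∨
    ((j = 0 ∨ j = 2 ∨ j = 5) ∧ ¬ (i = 0 ∨ i = 2 ∨ i = 5)) then 1 else 0

theorem core_hall [DecidableEq V] (ends : E → Sym2 V) (x : E → ℕ) (r : ℕ) (u v : V) (huv : u ≠ v)
    (c : V → Bool)
    (hnl : ∀ e, x e ≠ 0 → ¬ (ends e).IsDiag)
    (hc : ∀ e, x e ≠ 0 → u ∉ ends e → v ∉ ends e →
      ∃ a b, c a = true ∧ c b = false ∧ ends e = s(a, b))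
    (hdeg : ∀ w, deg ends x w = r)
    (hcut : ∀ Z : Finset V, Odd #Z → r ≤ ∑ e, (open Classical in
      if (∃ a ∈ Z, ∃ b, b ∉ Z ∧ ends e = s(a, b)) then x e else 0))
    (hAB : #{w : V | w ≠ u ∧ w ≠ v ∧ c w = true} = #{w : V | w ≠ u ∧ w ≠ v ∧ c w = false})
    (S T : Finset V) (hS : ∀ w ∈ S, side1 u v c w = true) (hT : ∀ w ∈ T, side1 u v c w = false) :
    deg ends (x1 ends x u v c) u * #S ≤ deg ends (x1 ends x u v c) u * #T +
      ∑ e, (open Classical in
        if (∃ w ∈ S, w ∈ ends e) ∧ (∀ w ∈ T, w ∉ ends e) then x1 ends x u v c e else 0) := by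
  classical
  have hex : ∀ e, ∃ p : V × V, ends e = s(p.1, p.2) := by
    intro e
    induction ends e using Sym2.ind with
    | _ a b => exact ⟨(a, b), rfl⟩
  choose p hp using hex
  set a : E → V := fun e => (p e).1 with ha
  set b : E → V := fun e => (p e).2 with hb
  have hab : ∀ e, ends e = s(a e, b e) := hp
  have hne : ∀ e, x e ≠ 0 → a e ≠ b e := by
    intro e he h
    apply hnl e he
    rw [hab e, Sym2.mk_isDiag_iff]
    exact h
  set t : V → Fin 6 := ty u v c S T with ht
  have t4 : ∀ w, t w = 4 ↔ w = u := ty_eq4 u v c S T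
  have t5 : ∀ w, t w = 5 ↔ w = v := ty_eq5 u v huv c S T
  have hal : ∀ e, x e ≠ 0 → allowed (t (a e)) (t (b e)) := by
    intro e he
    refine ⟨?_, ?_, ?_⟩
    · intro h h'
      rw [t4] at h h'
      exact hne e he (h.trans h'.symm)
    · intro h h'
      rw [t5] at h h'
      exact hne e he (h.trans h'.symm)
    · intro h1 h2 h3 h4
      rw [ne_eq, t4] at h1 h3
      rw [ne_eq, t5] at h2 h4
      rw [ht, sideT_ty, sideT_ty]
      have e1 : side1 u v c (a e) = c (a e) := by simp [side1, h1, h2]
      have e2 : side1 u v c (b e) = c (b e) := by simp [side1, h3, h4]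
      rw [e1, e2]
      obtain ⟨a', b', ha', hb', hab'⟩ := hc e he
        (by rw [hab e, Sym2.mem_iff]; push Not; exact ⟨fun h => h1 h.symm, fun h => h3 h.symm⟩)
        (by rw [hab e, Sym2.mem_iff]; push Not; exact ⟨fun h => h2 h.symm, fun h => h4 h.symm⟩)
      rw [hab e] at hab'
      rcases Sym2.eq_iff.1 hab' with ⟨h5, h6⟩ | ⟨h5, h6⟩
      · rw [h5, h6, ha', hb']; simp
      · rw [h5, h6, ha', hb']; simp
  -- degree sums
  have hdg : ∀ i, (r : ℤ) * (#(univ.filter (fun w => t w = i)) : ℤ) = W x a b t (dg i) := by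
    intro i
    have h1 := sum_deg_gen ends a b hab x hne (fun w => t w = i)
    simp only [hdeg, Finset.sum_const, nsmul_eq_mul] at h1
    unfold W dg
    rw [← h1]; ring
  have n4 : #(univ.filter (fun w => t w = 4)) = 1 := by
    have : univ.filter (fun w => t w = 4) = {u} := by ext w; simp [t4]
    rw [this]; simp
  have n5 : #(univ.filter (fun w => t w = 5)) = 1 := by
    have : univ.filter (fun w => t w = 5) = {v} := by ext w; simp [t5]
    rw [this]; simp
  have d0 := hdg 0
  have d1 := hdg 1
  have d2 := hdg 2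
  have d3 := hdg 3
  have d4 := hdg 4
  have d5 := hdg 5
  rw [W_expand x a b t hal (dg 0) (by decide)] at d0
  rw [W_expand x a b t hal (dg 1) (by decide)] at d1
  rw [W_expand x a b t hal (dg 2) (by decide)] at d2
  rw [W_expand x a b t hal (dg 3) (by decide)] at d3
  rw [W_expand x a b t hal (dg 4) (by decide)] at d4
  rw [W_expand x a b t hal (dg 5) (by decide)] at d5
  rw [n4] at d4
  rw [n5] at d5
  simp [dg] at d0 d1 d2 d3 d4 d5
  -- the number of vertices in the two classes
  have hn : #(univ.filter (fun w => t w = 0)) + #(univ.filter (fun w => t w = 1)) =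
      #(univ.filter (fun w => t w = 2)) + #(univ.filter (fun w => t w = 3)) := by
    have hA : #(univ.filter (fun w => w ≠ u ∧ w ≠ v ∧ c w = true)) =
        #(univ.filter (fun w => t w = 0)) + #(univ.filter (fun w => t w = 1)) := by
      rw [← Finset.card_union_of_disjoint]
      · congr 1
        ext w
        simp only [mem_filter, mem_univ, true_and, mem_union, ht, ty]
        split_ifs <;> simp_all
      · rw [Finset.disjoint_left]
        intro w hw hw'
        simp only [mem_filter, mem_univ, true_and] at hw hw'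
        rw [hw] at hw'; exact absurd hw' (by decide)
    have hB : #(univ.filter (fun w => w ≠ u ∧ w ≠ v ∧ c w = false)) =
        #(univ.filter (fun w => t w = 2)) + #(univ.filter (fun w => t w = 3)) := by
      rw [← Finset.card_union_of_disjoint]
      · congr 1
        ext w
        simp only [mem_filter, mem_univ, true_and, mem_union, ht, ty]
        split_ifs <;> simp_all
      · rw [Finset.disjoint_left]
        intro w hw hw'
        simp only [mem_filter, mem_univ, true_and] at hw hw'
        rw [hw] at hw'; exact absurd hw' (by decide)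
    rw [← hA, ← hB]; exact hAB
  -- the cut condition
  have hcutI : (#(univ.filter (fun w => t w = 0)) : ℤ) = #(univ.filter (fun w => t w = 2)) →
      (r : ℤ) ≤ W x a b t gC := by
    intro h02
    have hZ : #(univ.filter (fun w => t w = 0 ∨ t w = 2 ∨ t w = 5)) =
        #(univ.filter (fun w => t w = 0)) + (#(univ.filter (fun w => t w = 2)) +
          #(univ.filter (fun w => t w = 5))) := by
      rw [← Finset.card_union_of_disjoint, ← Finset.card_union_of_disjoint]
      · congr 1
        ext w
        simp only [mem_filter, mem_univ, true_and, mem_union]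
      · rw [Finset.disjoint_left]
        intro w hw hw'
        simp only [mem_filter, mem_univ, true_and, mem_union] at hw hw'
        rw [hw] at hw'; exact absurd hw' (by decide)
      · rw [Finset.disjoint_left]
        intro w hw hw'
        simp only [mem_filter, mem_univ, true_and] at hw hw'
        rw [hw] at hw'; exact absurd hw' (by decide)
    have hodd : Odd #(univ.filter (fun w => t w = 0 ∨ t w = 2 ∨ t w = 5)) := by
      rw [hZ, n5]
      have : #(univ.filter (fun w => t w = 0)) = #(univ.filter (fun w => t w = 2)) := by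
        exact_mod_cast h02
      rw [this]
      exact ⟨#(univ.filter (fun w => t w = 2)), by ring⟩
    have h1 := (Nat.cast_le (α := ℤ)).2 (hcut _ hodd)
    refine h1.trans (le_of_eq ?_)
    unfold W
    push_cast
    apply Finset.sum_congr rfl
    intro e _
    have h3 : (∃ a ∈ univ.filter (fun w => t w = 0 ∨ t w = 2 ∨ t w = 5), ∃ b,
      b ∉ univ.filter (fun w => t w = 0 ∨ t w = 2 ∨ t w = 5) ∧ ends e = s(a, b)) ↔
      ((t (a e) = 0 ∨ t (a e) = 2 ∨ t (a e) = 5) ∧ ¬ (t (b e) = 0 ∨ t (b e) = 2 ∨ t (b e) = 5)) ∨
      ((t (b e) = 0 ∨ t (b e) = 2 ∨ t (b e) = 5) ∧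
        ¬ (t (a e) = 0 ∨ t (a e) = 2 ∨ t (a e) = 5)) := by
      simp only [mem_filter, mem_univ, true_and]
      constructor
      · rintro ⟨a', h1, b', h2, h3⟩
        rw [hab e] at h3
        rcases Sym2.eq_iff.1 h3 with ⟨h5, h6⟩ | ⟨h5, h6⟩
        · left; rw [h5, h6]; exact ⟨h1, h2⟩
        · right; rw [h5, h6]; exact ⟨h1, h2⟩
      · rintro (⟨h1, h2⟩ | ⟨h1, h2⟩)
        · exact ⟨a e, h1, b e, h2, hab e⟩
        · exact ⟨b e, h1, a e, h2, by rw [hab e, Sym2.eq_swap]⟩
    simp only [h3, gC]
    split_ifs <;> simp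
  rw [W_expand x a b t hal gC (by decide)] at hcutI
  simp [gC] at hcutI
  -- alpha
  have hα : (deg ends (x1 ends x u v c) u : ℤ) = W x a b t gA := by
    rw [deg_eq]
    unfold W
    push_cast
    apply Finset.sum_congr rfl
    intro e _
    rw [x1_eq ends x u v huv c S T e (a e) (b e) (hab e)]
    have h1 : u ∈ ends e ↔ (t (a e) = 4 ∨ t (b e) = 4) := by
      rw [hab e, Sym2.mem_iff, t4, t4]
      exact ⟨fun h => h.imp Eq.symm Eq.symm, fun h => h.imp Eq.symm Eq.symm⟩
    simp only [h1, gA, ← ht]
    rw [← ite_aux1]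
  rw [W_expand x a b t hal gA (by decide)] at hα
  simp [gA, sideT] at hα
  -- the Hall sum
  have hH : ((∑ e, if (∃ w ∈ S, w ∈ ends e) ∧ (∀ w ∈ T, w ∉ ends e) then
      x1 ends x u v c e else 0 : ℕ) : ℤ) = W x a b t (gH (decide (v ∈ S)) (decide (u ∈ T))) := by
    unfold W
    push_cast
    apply Finset.sum_congr rfl
    intro e _
    rw [x1_eq ends x u v huv c S T e (a e) (b e) (hab e)]
    have h1 : (∃ w ∈ S, w ∈ ends e) ↔ ((t (a e) = 0 ∨ (v ∈ S ∧ t (a e) = 5)) ∨
        (t (b e) = 0 ∨ (v ∈ S ∧ t (b e) = 5))) := by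
      rw [← mem_S_iff u v huv c S T hS, ← mem_S_iff u v huv c S T hS]
      rw [hab e]
      simp only [Sym2.mem_iff]
      constructor
      · rintro ⟨w, hw, rfl | rfl⟩
        · exact Or.inl hw
        · exact Or.inr hw
      · rintro (h | h)
        · exact ⟨_, h, Or.inl rfl⟩
        · exact ⟨_, h, Or.inr rfl⟩
    have h2 : (∀ w ∈ T, w ∉ ends e) ↔ (¬ (t (a e) = 2 ∨ (u ∈ T ∧ t (a e) = 4)) ∧
        ¬ (t (b e) = 2 ∨ (u ∈ T ∧ t (b e) = 4))) := by
      rw [← mem_T_iff u v huv c S T hT, ← mem_T_iff u v huv c S T hT]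
      rw [hab e]
      simp only [Sym2.mem_iff]
      constructor
      · intro h
        exact ⟨fun h1 => h _ h1 (Or.inl rfl), fun h1 => h _ h1 (Or.inr rfl)⟩
      · rintro ⟨h1, h2⟩ w hw (rfl | rfl)
        · exact h1 hw
        · exact h2 hw
    simp only [h1, h2, gH, ← ht, decide_eq_true_eq]
    rw [← ite_aux2]
  -- cardinalities
  have hScard : (#S : ℤ) = #(univ.filter (fun w => t w = 0)) + (if v ∈ S then 1 else 0) := by
    have h1 : S = univ.filter (fun w => w ∈ S) := by ext w; simp
    have h2 : #S = #(univ.filter (fun w => t w = 0)) + #(univ.filter (fun w => v ∈ S ∧ t w = 5)) := by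
      conv_lhs => rw [h1]
      rw [← Finset.card_union_of_disjoint]
      · congr 1
        ext w
        simp only [mem_filter, mem_univ, true_and, mem_union]
        exact mem_S_iff u v huv c S T hS w
      · rw [Finset.disjoint_left]
        intro w hw hw'
        simp only [mem_filter, mem_univ, true_and] at hw hw'
        rw [hw] at hw'; exact absurd hw'.2 (by decide)
    rw [h2]
    push_cast
    congr 1
    by_cases hv : v ∈ S
    · simp only [hv, true_and, if_true]
      exact_mod_cast n5
    · simp [hv]
  have hTcard : (#T : ℤ) = #(univ.filter (fun w => t w = 2)) + (if u ∈ T then 1 else 0) := by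
    have h1 : T = univ.filter (fun w => w ∈ T) := by ext w; simp
    have h2 : #T = #(univ.filter (fun w => t w = 2)) + #(univ.filter (fun w => u ∈ T ∧ t w = 4)) := by
      conv_lhs => rw [h1]
      rw [← Finset.card_union_of_disjoint]
      · congr 1
        ext w
        simp only [mem_filter, mem_univ, true_and, mem_union]
        exact mem_T_iff u v huv c S T hT w
      · rw [Finset.disjoint_left]
        intro w hw hw'
        simp only [mem_filter, mem_univ, true_and] at hw hw'
        rw [hw] at hw'; exact absurd hw'.2 (by decide)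
    rw [h2]
    push_cast
    congr 1
    by_cases hv : u ∈ T
    · simp only [hv, true_and, if_true]
      exact_mod_cast n4
    · simp [hv]
  have hbr : ∀ X Y, 0 ≤ W x a b t (br X Y) := by
    intro X Y
    apply W_nonneg
    intro i j
    unfold br
    split_ifs <;> simp
  have hn' : (#(univ.filter (fun w => t w = 0)) : ℤ) + #(univ.filter (fun w => t w = 1)) =
      #(univ.filter (fun w => t w = 2)) + #(univ.filter (fun w => t w = 3)) := by
    exact_mod_cast hn
  rw [W_expand x a b t hal (gH (decide (v ∈ S)) (decide (u ∈ T)))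
    (by generalize decide (v ∈ S) = bv; generalize decide (u ∈ T) = bu; revert bv bu; decide)] at hH
  have p02 := hbr 0 2
  have p03 := hbr 0 3
  have p04 := hbr 0 4
  have p05 := hbr 0 5
  have p12 := hbr 1 2
  have p13 := hbr 1 3
  have p14 := hbr 1 4
  have p15 := hbr 1 5
  have p24 := hbr 2 4
  have p25 := hbr 2 5
  have p34 := hbr 3 4
  have p35 := hbr 3 5
  have p45 := hbr 4 5
  have hcutI' : (#(univ.filter (fun w => t w = 0)) : ℤ) = #(univ.filter (fun w => t w = 2)) →
      (r : ℤ) ≤ W x a b t (br 0 3) + W x a b t (br 1 2) + W x a b t (br 0 4) + W x a b t (br 2 4)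
        + W x a b t (br 4 5) + W x a b t (br 1 5) + W x a b t (br 3 5) := by
    intro h
    have := hcutI (by exact_mod_cast h)
    linarith
  have key := key_cases (W x a b t (br 0 2)) (W x a b t (br 0 3)) (W x a b t (br 0 4))
    (W x a b t (br 0 5)) (W x a b t (br 1 2)) (W x a b t (br 1 3)) (W x a b t (br 1 4))
    (W x a b t (br 1 5)) (W x a b t (br 2 4)) (W x a b t (br 2 5)) (W x a b t (br 3 4))
    (W x a b t (br 3 5)) (W x a b t (br 4 5)) (#(univ.filter (fun w => t w = 0)))
    (#(univ.filter (fun w => t w = 1))) (#(univ.filter (fun w => t w = 2)))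
    (#(univ.filter (fun w => t w = 3))) r
    p02 p03 p04 p05 p12 p13 p14 p15 p24 p25 p34 p35 p45
    (by linarith only [d0]) (by linarith only [d1]) (by linarith only [d2])
    (by linarith only [d3]) (by linarith only [d4]) (by linarith only [d5]) hn' hcutI'
    (if v ∈ S then 1 else 0) (if u ∈ T then 1 else 0)
    (by split_ifs <;> simp) (by split_ifs <;> simp)
  have hH' : ((∑ e, if (∃ w ∈ S, w ∈ ends e) ∧ (∀ w ∈ T, w ∉ ends e) then
      x1 ends x u v c e else 0 : ℕ) : ℤ) = W x a b t (br 0 3) +
      (1 - (if u ∈ T then 1 else 0)) * W x a b t (br 0 4) +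
      (if v ∈ S then 1 else 0) * W x a b t (br 3 5) := by
    rw [hH]
    by_cases hv : v ∈ S <;> by_cases hu : u ∈ T <;> simp [hv, hu, gH, sideT]
  rw [← hScard, ← hTcard, ← hH'] at key
  have hα' : (deg ends (x1 ends x u v c) u : ℤ) = W x a b t (br 0 4) + W x a b t (br 1 4) := by
    linarith only [hα]
  rw [← hα'] at key
  exact_mod_cast key


theorem base_facts [DecidableEq V] (ends : E → Sym2 V) (x : E → ℕ) (r : ℕ) (u v : V)
    (huv : u ≠ v) (c : V → Bool)
    (hnl : ∀ e, x e ≠ 0 → ¬ (ends e).IsDiag)
    (hc : ∀ e, x e ≠ 0 → u ∉ ends e → v ∉ ends e →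
      ∃ a b, c a = true ∧ c b = false ∧ ends e = s(a, b))
    (hdeg : ∀ w, deg ends x w = r) :
    ∃ (a b : E → V), (∀ e, ends e = s(a e, b e)) ∧
      (∀ e, x e ≠ 0 → allowed (ty u v c ∅ ∅ (a e)) (ty u v c ∅ ∅ (b e))) ∧
      (r : ℤ) * #{w : V | w ≠ u ∧ w ≠ v ∧ c w = true} = W x a b (ty u v c ∅ ∅) (br 1 3) +
        W x a b (ty u v c ∅ ∅) (br 1 4) + W x a b (ty u v c ∅ ∅) (br 1 5) ∧
      (r : ℤ) * #{w : V | w ≠ u ∧ w ≠ v ∧ c w = false} = W x a b (ty u v c ∅ ∅) (br 1 3) +
        W x a b (ty u v c ∅ ∅) (br 3 4) + W x a b (ty u v c ∅ ∅) (br 3 5) ∧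
      (r : ℤ) = W x a b (ty u v c ∅ ∅) (br 1 4) + W x a b (ty u v c ∅ ∅) (br 3 4) +
        W x a b (ty u v c ∅ ∅) (br 4 5) ∧
      (r : ℤ) = W x a b (ty u v c ∅ ∅) (br 1 5) + W x a b (ty u v c ∅ ∅) (br 3 5) +
        W x a b (ty u v c ∅ ∅) (br 4 5) ∧
      (deg ends (x1 ends x u v c) u : ℤ) = W x a b (ty u v c ∅ ∅) (br 1 4) ∧
      (deg ends (x1 ends x u v c) v : ℤ) = W x a b (ty u v c ∅ ∅) (br 3 5) := by
  classical
  have hex : ∀ e, ∃ p : V × V, ends e = s(p.1, p.2) := by
    intro e
    induction ends e using Sym2.ind with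
    | _ a b => exact ⟨(a, b), rfl⟩
  choose p hp using hex
  set a : E → V := fun e => (p e).1 with ha
  set b : E → V := fun e => (p e).2 with hb
  have hab : ∀ e, ends e = s(a e, b e) := hp
  have hne : ∀ e, x e ≠ 0 → a e ≠ b e := by
    intro e he h
    apply hnl e he
    rw [hab e, Sym2.mk_isDiag_iff]
    exact h
  set t : V → Fin 6 := ty u v c ∅ ∅ with ht
  have t4 : ∀ w, t w = 4 ↔ w = u := ty_eq4 u v c ∅ ∅
  have t5 : ∀ w, t w = 5 ↔ w = v := ty_eq5 u v huv c ∅ ∅
  have t0 : ∀ w, t w ≠ 0 := by
    intro w
    simp only [ht, ty]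
    split_ifs <;> simp_all
  have t2 : ∀ w, t w ≠ 2 := by
    intro w
    simp only [ht, ty]
    split_ifs <;> simp_all
  have hal : ∀ e, x e ≠ 0 → allowed (t (a e)) (t (b e)) := by
    intro e he
    refine ⟨?_, ?_, ?_⟩
    · intro h h'
      rw [t4] at h h'
      exact hne e he (h.trans h'.symm)
    · intro h h'
      rw [t5] at h h'
      exact hne e he (h.trans h'.symm)
    · intro h1 h2 h3 h4
      rw [ne_eq, t4] at h1 h3
      rw [ne_eq, t5] at h2 h4
      rw [ht, sideT_ty, sideT_ty]
      have e1 : side1 u v c (a e) = c (a e) := by simp [side1, h1, h2]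
      have e2 : side1 u v c (b e) = c (b e) := by simp [side1, h3, h4]
      rw [e1, e2]
      obtain ⟨a', b', ha', hb', hab'⟩ := hc e he
        (by rw [hab e, Sym2.mem_iff]; push Not; exact ⟨fun h => h1 h.symm, fun h => h3 h.symm⟩)
        (by rw [hab e, Sym2.mem_iff]; push Not; exact ⟨fun h => h2 h.symm, fun h => h4 h.symm⟩)
      rw [hab e] at hab'
      rcases Sym2.eq_iff.1 hab' with ⟨h5, h6⟩ | ⟨h5, h6⟩
      · rw [h5, h6, ha', hb']; simp
      · rw [h5, h6, ha', hb']; simp
  -- degree sums
  have hdg : ∀ i, (r : ℤ) * (#(univ.filter (fun w => t w = i)) : ℤ) = W x a b t (dg i) := by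
    intro i
    have h1 := sum_deg_gen ends a b hab x hne (fun w => t w = i)
    simp only [hdeg, Finset.sum_const, nsmul_eq_mul] at h1
    unfold W dg
    rw [← h1]; ring
  have n4 : #(univ.filter (fun w => t w = 4)) = 1 := by
    have : univ.filter (fun w => t w = 4) = {u} := by ext w; simp [t4]
    rw [this]; simp
  have n5 : #(univ.filter (fun w => t w = 5)) = 1 := by
    have : univ.filter (fun w => t w = 5) = {v} := by ext w; simp [t5]
    rw [this]; simp
  have n1 : univ.filter (fun w => t w = 1) = univ.filter (fun w => w ≠ u ∧ w ≠ v ∧ c w = true) := by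
    ext w
    simp only [mem_filter, mem_univ, true_and, ht, ty]
    split_ifs <;> simp_all
  have n3 : univ.filter (fun w => t w = 3) = univ.filter (fun w => w ≠ u ∧ w ≠ v ∧ c w = false) := by
    ext w
    simp only [mem_filter, mem_univ, true_and, ht, ty]
    split_ifs <;> simp_all
  have d1 := hdg 1
  have d3 := hdg 3
  have d4 := hdg 4
  have d5 := hdg 5
  rw [W_expand x a b t hal (dg 1) (by decide)] at d1
  rw [W_expand x a b t hal (dg 3) (by decide)] at d3
  rw [W_expand x a b t hal (dg 4) (by decide)] at d4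
  rw [W_expand x a b t hal (dg 5) (by decide)] at d5
  rw [n4] at d4
  rw [n5] at d5
  rw [n1] at d1
  rw [n3] at d3
  have z0 : ∀ X, W x a b t (br 0 X) = 0 := by
    intro X
    unfold W
    apply Finset.sum_eq_zero
    intro e _
    simp [br, t0]
  have z2 : ∀ X, W x a b t (br 2 X) = 0 := by
    intro X
    unfold W
    apply Finset.sum_eq_zero
    intro e _
    simp [br, t2]
  have z12 : W x a b t (br 1 2) = 0 := by
    unfold W
    apply Finset.sum_eq_zero
    intro e _
    simp [br, t2]
  have hα : ∀ (w : V) (i : Fin 6), (∀ w', t w' = i ↔ w' = w) →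
      (deg ends (x1 ends x u v c) w : ℤ) = W x a b t (fun j k =>
      if (j = i ∨ k = i) ∧ sideT j ≠ sideT k ∧
        ¬ ((j = 4 ∧ k = 5) ∨ (j = 5 ∧ k = 4)) then 1 else 0) := by
    intro w i hw
    rw [deg_eq]
    unfold W
    push_cast
    apply Finset.sum_congr rfl
    intro e _
    rw [x1_eq ends x u v huv c ∅ ∅ e (a e) (b e) (hab e)]
    have h1 : w ∈ ends e ↔ (t (a e) = i ∨ t (b e) = i) := by
      rw [hab e, Sym2.mem_iff, hw, hw]
      exact ⟨fun h => h.imp Eq.symm Eq.symm, fun h => h.imp Eq.symm Eq.symm⟩
    simp only [h1, ← ht]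
    rw [← ite_aux1]
  have hu := hα u 4 t4
  have hv := hα v 5 t5
  rw [W_expand x a b t hal _ (by decide)] at hu
  rw [W_expand x a b t hal _ (by decide)] at hv
  simp [dg, sideT, z0, z2, z12] at d1 d3 d4 d5 hu hv
  refine ⟨a, b, hab, hal, ?_, ?_, ?_, ?_, ?_, ?_⟩
  · exact d1
  · linarith only [d3]
  · linarith only [d4]
  · linarith only [d5]
  · linarith only [hu]
  · linarith only [hv]


/-- `x` is a nonnegative integer combination of perfect matchings -/
def Dec (ends : E → Sym2 V) (x : E → ℕ) : Prop :=
  ∃ n : Finset E → ℕ, (∀ M, n M ≠ 0 → PM ends M) ∧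
    ∀ e, x e = ∑ M : Finset E, (open Classical in if e ∈ M then n M else 0)

omit [Fintype V] in
theorem Dec.add {ends : E → Sym2 V} {x y : E → ℕ} (hx : Dec ends x) (hy : Dec ends y) :
    Dec ends (fun e => x e + y e) := by
  classical
  obtain ⟨n, hn, hxn⟩ := hx
  obtain ⟨m, hm, hym⟩ := hy
  refine ⟨fun M => n M + m M, ?_, ?_⟩
  · intro M hM
    by_cases h : n M = 0
    · apply hm M
      intro h'
      apply hM
      simp [h, h']
    · exact hn M h
  · intro e
    show x e + y e = _
    rw [hxn e, hym e, ← Finset.sum_add_distrib]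
    apply Finset.sum_congr rfl
    intro M _
    by_cases h : e ∈ M <;> simp [h]

omit [Fintype V] in
theorem Dec.zero (ends : E → Sym2 V) (x : E → ℕ) (hx : ∀ e, x e = 0) : Dec ends x := by
  refine ⟨fun _ => 0, fun M h => absurd rfl h, ?_⟩
  intro e
  rw [hx e]
  simp

omit [Fintype V] in
theorem W_eq_zero (x : E → ℕ) (a b : E → V) (t : V → Fin 6) (X Y : Fin 6)
    (h : W x a b t (br X Y) = 0) (e : E) (he : x e ≠ 0) : br X Y (t (a e)) (t (b e)) = 0 := by
  unfold W at h
  have hnn : ∀ e ∈ (univ : Finset E), 0 ≤ (x e : ℤ) * br X Y (t (a e)) (t (b e)) := by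
    intro e _
    apply mul_nonneg (by positivity)
    unfold br; split_ifs <;> simp
  have := (Finset.sum_eq_zero_iff_of_nonneg hnn).1 h e (mem_univ e)
  rcases mul_eq_zero.1 this with h | h
  · exact absurd (by exact_mod_cast h) he
  · exact h

omit [Fintype V] in
theorem br_nonneg (x : E → ℕ) (a b : E → V) (t : V → Fin 6) (X Y : Fin 6) :
    0 ≤ W x a b t (br X Y) := by
  apply W_nonneg
  intro i j
  unfold br; split_ifs <;> simp

omit [Fintype V] in
theorem ty_ne0 [DecidableEq V] (u v : V) (c : V → Bool) (w : V) : ty u v c ∅ ∅ w ≠ 0 := by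
  unfold ty; split_ifs <;> simp_all

omit [Fintype V] in
theorem ty_ne2 [DecidableEq V] (u v : V) (c : V → Bool) (w : V) : ty u v c ∅ ∅ w ≠ 2 := by
  unfold ty; split_ifs <;> simp_all

/-- second bipartition: `u` is put on the `true` side, `v` on the `false` side -/
def side2 (u v : V) (c : V → Bool) [DecidableEq V] (w : V) : Bool :=
  if w = u then true else if w = v then false else c w

theorem balanced [DecidableEq V] (ends : E → Sym2 V) (x : E → ℕ) (r : ℕ) (u v : V) (huv : u ≠ v)
    (c : V → Bool)
    (hnl : ∀ e, x e ≠ 0 → ¬ (ends e).IsDiag)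
    (hc : ∀ e, x e ≠ 0 → u ∉ ends e → v ∉ ends e →
      ∃ a b, c a = true ∧ c b = false ∧ ends e = s(a, b))
    (hdeg : ∀ w, deg ends x w = r)
    (hcut : ∀ Z : Finset V, Odd #Z → r ≤ ∑ e, (open Classical in
      if (∃ a ∈ Z, ∃ b, b ∉ Z ∧ ends e = s(a, b)) then x e else 0))
    (hAB : #{w : V | w ≠ u ∧ w ≠ v ∧ c w = true} = #{w : V | w ≠ u ∧ w ≠ v ∧ c w = false}) :
    Dec ends x := by
  classical
  obtain ⟨a, b, hab, hal, f1, f2, f3, f4, f5, f6⟩ := base_facts ends x r u v huv c hnl hc hdeg
  have hkuv : deg ends (x1 ends x u v c) v = deg ends (x1 ends x u v c) u := by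
    have h1 : (deg ends (x1 ends x u v c) v : ℤ) = deg ends (x1 ends x u v c) u := by
      rw [f5, f6]
      rw [hAB] at f1
      linarith
    exact_mod_cast h1
  have hx1 : ∀ e, x1 ends x u v c e ≠ 0 →
      ∃ a b, side1 u v c a = true ∧ side1 u v c b = false ∧ ends e = s(a, b) := by
    intro e he
    by_contra hcon
    apply he
    unfold x1
    rw [if_neg]
    rintro ⟨h1, _⟩
    exact hcon h1
  have hx1le : ∀ e, x1 ends x u v c e ≤ x e := by
    intro e
    unfold x1
    split_ifs <;> simp
  have hcard : Fintype.card {w : V // side1 u v c w = true} =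
      Fintype.card {w : V // side1 u v c w = false} := by
    rw [Fintype.card_subtype, Fintype.card_subtype]
    have hA : univ.filter (fun w => side1 u v c w = true) =
        insert v (univ.filter (fun w => w ≠ u ∧ w ≠ v ∧ c w = true)) := by
      ext w
      simp only [mem_filter, mem_univ, true_and, mem_insert, side1]
      by_cases h1 : w = u
      · subst h1; simp [huv]
      · by_cases h2 : w = v
        · simp [h2, Ne.symm huv]
        · simp [h1, h2]
    have hB : univ.filter (fun w => side1 u v c w = false) =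
        insert u (univ.filter (fun w => w ≠ u ∧ w ≠ v ∧ c w = false)) := by
      ext w
      simp only [mem_filter, mem_univ, true_and, mem_insert, side1]
      by_cases h1 : w = u
      · subst h1; simp
      · by_cases h2 : w = v
        · simp [h2, Ne.symm huv]
        · simp [h1, h2]
    rw [hA, hB, Finset.card_insert_of_notMem (by simp), Finset.card_insert_of_notMem (by simp), hAB]
  obtain ⟨z, hz, hzd⟩ := bip_factor ends (side1 u v c) (x1 ends x u v c)
    (deg ends (x1 ends x u v c) u) hx1 hcard
    (fun S T hS hT => by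
      have := core_hall ends x r u v huv c hnl hc hdeg hcut hAB S T hS hT
      refine this.trans (le_of_eq ?_)
      congr 1
      apply Finset.sum_congr rfl
      intro e _
      congr)
  have hzx : ∀ e, z e ≤ x e := fun e => (hz e).trans (hx1le e)
  have heq : ∀ w, deg ends (x1 ends x u v c) w = deg ends (x1 ends x u v c) u →
      ∀ e, w ∈ ends e → z e = x1 ends x u v c e := by
    intro w hw e hwe
    have h1 : deg ends z w = deg ends (x1 ends x u v c) w := by rw [hzd, hw]
    rw [deg_eq, deg_eq] at h1
    have h2 := (Finset.sum_eq_sum_iff_of_le (fun i _ => by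
      by_cases h : w ∈ ends i
      · simp only [h, if_true]; exact hz i
      · simp [h])).1 h1 e (mem_univ e)
    simpa [hwe] using h2
  have hdec1 : Dec ends z := by
    apply konig ends (side1 u v c) _ z _ hzd
    intro e he
    apply hx1 e
    have := hz e
    omega
  have hdec2 : Dec ends (fun e => x e - z e) := by
    apply konig ends (side2 u v c) (r - deg ends (x1 ends x u v c) u) _ _ _
    · intro e he
      have hxe : x e ≠ 0 := by
        have he' : x e - z e ≠ 0 := he
        omega
      have hxz : z e ≠ x e := by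
        have he' : x e - z e ≠ 0 := he
        omega
      have hne : a e ≠ b e := by
        intro h
        apply hnl e hxe
        rw [hab e, Sym2.mk_isDiag_iff]
        exact h
      -- key claim for an edge `s(p, q)` with `p = u` or `p = v`
      have claim : ∀ p q, ends e = s(p, q) → p ≠ q → (p = u ∨ p = v) →
          side2 u v c p ≠ side2 u v c q := by
        intro p q hpq hpne hp
        by_cases hq : q = u ∨ q = v
        · rcases hp with rfl | rfl
          · rcases hq with rfl | rfl
            · exact absurd rfl hpne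
            · simp [side2, Ne.symm hpne]
          · rcases hq with rfl | rfl
            · simp [side2, hpne]
            · exact absurd rfl hpne
        · push Not at hq
          obtain ⟨hq1, hq2⟩ := hq
          intro hside
          apply hxz
          have hp' : p ∈ ends e := by rw [hpq]; simp
          have h1 : z e = x1 ends x u v c e := by
            rcases hp with rfl | rfl
            · exact heq _ rfl e hp'
            · exact heq _ hkuv e hp'
          rw [h1]
          unfold x1
          rw [if_pos]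
          refine ⟨?_, ?_⟩
          · rcases hp with rfl | rfl
            · refine ⟨q, p, ?_, ?_, by rw [hpq, Sym2.eq_swap]⟩
              · simp [side2, hq1, hq2] at hside
                simp [side1, hq1, hq2, hside]
              · simp [side1]
            · refine ⟨p, q, ?_, ?_, hpq⟩
              · simp [side1, Ne.symm huv]
              · simp [side2, hq1, hq2, Ne.symm huv] at hside
                simp [side1, hq1, hq2, hside]
          · rw [hpq]
            intro h
            rcases Sym2.eq_iff.1 h with ⟨_, h4⟩ | ⟨_, h4⟩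
            · exact hq2 h4
            · exact hq1 h4
      have hdiff : side2 u v c (a e) ≠ side2 u v c (b e) := by
        by_cases h1 : a e = u ∨ a e = v
        · exact claim _ _ (hab e) hne h1
        · by_cases h2 : b e = u ∨ b e = v
          · exact (claim _ _ (by rw [hab e, Sym2.eq_swap]) (Ne.symm hne) h2).symm
          · push Not at h1 h2
            obtain ⟨a', b', ha', hb', hab'⟩ := hc e hxe
              (by rw [hab e, Sym2.mem_iff]; push Not
                  exact ⟨fun h => h1.1 h.symm, fun h => h2.1 h.symm⟩)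
              (by rw [hab e, Sym2.mem_iff]; push Not
                  exact ⟨fun h => h1.2 h.symm, fun h => h2.2 h.symm⟩)
            have e1 : side2 u v c (a e) = c (a e) := by simp [side2, h1]
            have e2 : side2 u v c (b e) = c (b e) := by simp [side2, h2]
            rw [e1, e2]
            rw [hab e] at hab'
            rcases Sym2.eq_iff.1 hab' with ⟨h5, h6⟩ | ⟨h5, h6⟩
            · rw [h5, h6, ha', hb']; simp
            · rw [h5, h6, ha', hb']; simp
      cases ha : side2 u v c (a e) with
      | true =>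
        refine ⟨a e, b e, ha, ?_, hab e⟩
        rw [ha] at hdiff
        cases hb : side2 u v c (b e) with
        | true => exact absurd hb.symm hdiff
        | false => rfl
      | false =>
        refine ⟨b e, a e, ?_, ha, by rw [hab e, Sym2.eq_swap]⟩
        rw [ha] at hdiff
        cases hb : side2 u v c (b e) with
        | true => rfl
        | false => exact absurd hb.symm hdiff
    · intro w
      have h1 : deg ends (fun e => x e - z e) w + deg ends z w = deg ends x w := by
        simp only [deg_eq]
        rw [← Finset.sum_add_distrib]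
        apply Finset.sum_congr rfl
        intro e _
        have := hzx e
        split_ifs <;> omega
      rw [hzd, hdeg] at h1
      omega
  have h := hdec2.add hdec1
  have h2 : (fun e => x e - z e + z e) = x := by
    funext e
    have := hzx e
    omega
  rw [h2] at h
  exact h

theorem unbalanced [DecidableEq V] (ends : E → Sym2 V) (x : E → ℕ) (r : ℕ) (u v : V)
    (huv : u ≠ v) (c : V → Bool)
    (hnl : ∀ e, x e ≠ 0 → ¬ (ends e).IsDiag)
    (hc : ∀ e, x e ≠ 0 → u ∉ ends e → v ∉ ends e →
      ∃ a b, c a = true ∧ c b = false ∧ ends e = s(a, b))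
    (hdeg : ∀ w, deg ends x w = r)
    (hAB : #{w : V | w ≠ u ∧ w ≠ v ∧ c w = true} = #{w : V | w ≠ u ∧ w ≠ v ∧ c w = false} + 2 ∨
      #{w : V | w ≠ u ∧ w ≠ v ∧ c w = false} = #{w : V | w ≠ u ∧ w ≠ v ∧ c w = true} + 2) :
    Dec ends x := by
  classical
  obtain ⟨a, b, hab, hal, f1, f2, f3, f4, f5, f6⟩ := base_facts ends x r u v huv c hnl hc hdeg
  have p13 := br_nonneg x a b (ty u v c ∅ ∅) 1 3
  have p14 := br_nonneg x a b (ty u v c ∅ ∅) 1 4
  have p15 := br_nonneg x a b (ty u v c ∅ ∅) 1 5
  have p34 := br_nonneg x a b (ty u v c ∅ ∅) 3 4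
  have p35 := br_nonneg x a b (ty u v c ∅ ∅) 3 5
  have p45 := br_nonneg x a b (ty u v c ∅ ∅) 4 5
  rcases hAB with hAB | hAB
  · rw [hAB] at f1
    push_cast at f1
    have z34 : W x a b (ty u v c ∅ ∅) (br 3 4) = 0 := by linarith
    have z35 : W x a b (ty u v c ∅ ∅) (br 3 5) = 0 := by linarith
    have z45 : W x a b (ty u v c ∅ ∅) (br 4 5) = 0 := by linarith
    apply konig ends (fun w => decide (ty u v c ∅ ∅ w = 1)) r x _ hdeg
    intro e he
    have h1 := W_eq_zero x a b _ _ _ z34 e he
    have h2 := W_eq_zero x a b _ _ _ z35 e he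
    have h3 := W_eq_zero x a b _ _ _ z45 e he
    have h4 := hal e he
    have key : ∀ i j : Fin 6, allowed i j → i ≠ 0 → i ≠ 2 → j ≠ 0 → j ≠ 2 → br 3 4 i j = 0 →
        br 3 5 i j = 0 → br 4 5 i j = 0 → (i = 1 ∧ j ≠ 1) ∨ (j = 1 ∧ i ≠ 1) := by decide
    rcases key _ _ h4 (ty_ne0 u v c _) (ty_ne2 u v c _) (ty_ne0 u v c _) (ty_ne2 u v c _)
      h1 h2 h3 with ⟨h5, h6⟩ | ⟨h5, h6⟩
    · exact ⟨a e, b e, by simp [h5], by simp [h6], hab e⟩
    · exact ⟨b e, a e, by simp [h5], by simp [h6], by rw [hab e, Sym2.eq_swap]⟩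
  · rw [hAB] at f2
    push_cast at f2
    have z34 : W x a b (ty u v c ∅ ∅) (br 1 4) = 0 := by linarith
    have z35 : W x a b (ty u v c ∅ ∅) (br 1 5) = 0 := by linarith
    have z45 : W x a b (ty u v c ∅ ∅) (br 4 5) = 0 := by linarith
    apply konig ends (fun w => decide (ty u v c ∅ ∅ w = 3)) r x _ hdeg
    intro e he
    have h1 := W_eq_zero x a b _ _ _ z34 e he
    have h2 := W_eq_zero x a b _ _ _ z35 e he
    have h3 := W_eq_zero x a b _ _ _ z45 e he
    have h4 := hal e he
    have key : ∀ i j : Fin 6, allowed i j → i ≠ 0 → i ≠ 2 → j ≠ 0 → j ≠ 2 → br 1 4 i j = 0 →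
        br 1 5 i j = 0 → br 4 5 i j = 0 → (i = 3 ∧ j ≠ 3) ∨ (j = 3 ∧ i ≠ 3) := by decide
    rcases key _ _ h4 (ty_ne0 u v c _) (ty_ne2 u v c _) (ty_ne0 u v c _) (ty_ne2 u v c _)
      h1 h2 h3 with ⟨h5, h6⟩ | ⟨h5, h6⟩
    · exact ⟨a e, b e, by simp [h5], by simp [h6], hab e⟩
    · exact ⟨b e, a e, by simp [h5], by simp [h6], by rw [hab e, Sym2.eq_swap]⟩

/-- **Main theorem.**  A regular edge weighting satisfying the odd cut condition, whose support
becomes bipartite after deleting two vertices, is a nonnegative integer combination of perfect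
matchings. -/
theorem two_vertex (ends : E → Sym2 V) (x : E → ℕ) (r : ℕ) (u v : V) (huv : u ≠ v)
    (c : V → Bool)
    (hnl : ∀ e, x e ≠ 0 → ¬ (ends e).IsDiag)
    (hc : ∀ e, x e ≠ 0 → u ∉ ends e → v ∉ ends e →
      ∃ a b, c a = true ∧ c b = false ∧ ends e = s(a, b))
    (hdeg : ∀ w, deg ends x w = r)
    (hcut : ∀ Z : Finset V, Odd #Z → r ≤ ∑ e, (open Classical in
      if (∃ a ∈ Z, ∃ b, b ∉ Z ∧ ends e = s(a, b)) then x e else 0)) :
    Dec ends x := by
  classical
  rcases Nat.eq_zero_or_pos r with hr | hr
  · apply Dec.zero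
    intro e
    by_contra he
    have hex : ∃ p : V × V, ends e = s(p.1, p.2) := by
      induction ends e using Sym2.ind with
      | _ a b => exact ⟨(a, b), rfl⟩
    obtain ⟨p, hp⟩ := hex
    have := le_deg ends x p.1 e (by rw [hp]; simp)
    rw [hdeg, hr] at this
    omega
  · obtain ⟨a, b, hab, hal, f1, f2, f3, f4, f5, f6⟩ := base_facts ends x r u v huv c hnl hc hdeg
    have p13 := br_nonneg x a b (ty u v c ∅ ∅) 1 3
    have p14 := br_nonneg x a b (ty u v c ∅ ∅) 1 4
    have p15 := br_nonneg x a b (ty u v c ∅ ∅) 1 5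
    have p34 := br_nonneg x a b (ty u v c ∅ ∅) 3 4
    have p35 := br_nonneg x a b (ty u v c ∅ ∅) 3 5
    have p45 := br_nonneg x a b (ty u v c ∅ ∅) 4 5
    have hcard : #(univ : Finset V) = #{w : V | w ≠ u ∧ w ≠ v ∧ c w = true} +
        #{w : V | w ≠ u ∧ w ≠ v ∧ c w = false} + 2 := by
      have h1 : (univ : Finset V) = insert u (insert v
          ((univ.filter (fun w => w ≠ u ∧ w ≠ v ∧ c w = true)) ∪
            (univ.filter (fun w => w ≠ u ∧ w ≠ v ∧ c w = false)))) := by
        ext w
        simp only [mem_univ, mem_insert, mem_union, mem_filter, true_and, true_iff]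
        by_cases h1 : w = u
        · exact Or.inl h1
        · by_cases h2 : w = v
          · exact Or.inr (Or.inl h2)
          · right; right
            cases c w <;> simp [h1, h2]
      conv_lhs => rw [h1]
      rw [Finset.card_insert_of_notMem (by simp [huv]), Finset.card_insert_of_notMem (by simp),
        Finset.card_union_of_disjoint]
      rw [Finset.disjoint_left]
      intro w hw hw'
      simp only [mem_filter, mem_univ, true_and] at hw hw'
      rw [hw.2.2] at hw'; exact absurd hw'.2.2 (by decide)
    have heven : ¬ Odd #(univ : Finset V) := by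
      intro hodd
      have := hcut univ hodd
      simp at this
      omega
    set nA := #{w : V | w ≠ u ∧ w ≠ v ∧ c w = true} with hnA
    set nB := #{w : V | w ≠ u ∧ w ≠ v ∧ c w = false} with hnB
    have hrZ : (0 : ℤ) < r := by exact_mod_cast hr
    have u1 : nA ≤ nB + 2 := by
      by_contra hcon
      have h1 : (nB : ℤ) + 3 ≤ nA := by omega
      have h2 : (r : ℤ) * (nB + 3) ≤ r * nA := mul_le_mul_of_nonneg_left h1 hrZ.le
      have h3 : (r : ℤ) * (nB + 3) = r * nB + 3 * r := by ring
      linarith
    have u2 : nB ≤ nA + 2 := by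
      by_contra hcon
      have h1 : (nA : ℤ) + 3 ≤ nB := by omega
      have h2 : (r : ℤ) * (nA + 3) ≤ r * nB := mul_le_mul_of_nonneg_left h1 hrZ.le
      have h3 : (r : ℤ) * (nA + 3) = r * nA + 3 * r := by ring
      linarith
    have h3 : nA = nB ∨ nA = nB + 2 ∨ nB = nA + 2 := by
      rw [hcard, Nat.not_odd_iff_even] at heven
      obtain ⟨m, hm⟩ := heven
      omega
    rcases h3 with h3 | h3
    · exact balanced ends x r u v huv c hnl hc hdeg hcut h3
    · exact unbalanced ends x r u v huv c hnl hc hdeg h3

end Pool.Agent.H151R2.TV
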